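import Pool.Agent.Y957.VK.Fin2

/-!
# Möbius disjointness for almost every element of a family of flows

Let `V` be a finite dimensional real vector space and let `Φ v : X → X`, `v ∈ V`, be maps of a compact
metric space, jointly continuous, such that `t ↦ Φ (t v)` is a flow for every `v`.  Examples: a flow
(`V = ℝ`), an action of `ℝ ^ d`, and the maps `x ↦ exp (v) x` for a continuous action of a Lie group on
`X`, where `V` is the Lie algebra.  No assumption is made on the entropy.

For every point `x` and almost every `v ∈ V`, the map `T = Φ v` satisfies, for all continuous functions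
`f` at once, `(1 / N) ∑_{n ≤ N} f (T ^ n x) μ(n) → 0` and hence
`(1 / log N) ∑_{n ≤ N} f (T ^ n x) μ(n) / n → 0`.
-/

set_option autoImplicit false

namespace Pool.Agent.Results.MP_3e612f_nt.AlmostEveryElement

open Filter Topology MeasureTheory

/-- a jointly continuous family of maps which is a flow on every line through the origin -/
structure RadialFlows {V X : Type} [NormedAddCommGroup V] [NormedSpace ℝ V] [TopologicalSpace X]
    (Φ : V → X → X) : Prop where
  zero : ∀ x, Φ 0 x = x
  add : ∀ (s t : ℝ) (v : V) (x : X), Φ ((s + t) • v) x = Φ (s • v) (Φ (t • v) x)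
  continuous : Continuous fun p : V × X => Φ p.1 p.2

theorem RadialFlows.iter {V X : Type} [NormedAddCommGroup V] [NormedSpace ℝ V] [TopologicalSpace X]
    {Φ : V → X → X} (h : RadialFlows Φ) (v : V) (x : X) (n : ℕ) : (Φ v)^[n] x = Φ ((n : ℝ) • v) x := by
  induction n with
  | zero => simp [h.zero]
  | succ n ih =>
    rw [Function.iterate_succ_apply', ih]
    have h1 := h.add 1 n v x
    rw [one_smul] at h1
    rw [← h1]
    congr 2
    push_cast
    ring

/-- the flow on a line -/
noncomputable def RadialFlows.flow {V X : Type} [NormedAddCommGroup V] [NormedSpace ℝ V]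
    [TopologicalSpace X] {Φ : V → X → X} (h : RadialFlows Φ) (v : V) : Flow ℝ X where
  toFun t x := Φ (t • v) x
  cont' := h.continuous.comp ((continuous_fst.smul continuous_const).prodMk continuous_snd)
  map_add' s t x := h.add s t v x
  map_zero' x := by simp [h.zero]

theorem result (V : Type) [NormedAddCommGroup V] [NormedSpace ℝ V] [FiniteDimensional ℝ V]
    [MeasurableSpace V] [BorelSpace V] (ν : Measure V) [ν.IsAddHaarMeasure]
    (X : Type) [MetricSpace X] [CompactSpace X] (Φ : V → X → X) (hΦ : RadialFlows Φ) (x : X) :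
    ∀ᵐ v ∂ν, ∀ f : C(X, ℂ),
      Tendsto
        (fun N : ℕ =>
          (1 / (N : ℂ)) *
            ∑ n ∈ Finset.Icc 1 N, f ((Φ v)^[n] x) * ((ArithmeticFunction.moebius n : ℤ) : ℂ))
        atTop (𝓝 0) ∧
      Tendsto
        (fun N : ℕ =>
          (1 / (Real.log (N : ℝ) : ℂ)) *
            ∑ n ∈ Finset.Icc 1 N, f ((Φ v)^[n] x) * ((ArithmeticFunction.moebius n : ℤ) : ℂ) / (n : ℂ))
        atTop (𝓝 0) := by
  have h := Pool.Agent.Y957.VK.familyV Pool.Agent.Y957.VK.uc2_all _ Pool.Agent.Y957.VK.mu_le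
    Pool.Agent.Y957.VK.neg_mu ν (E := C(X, ℂ)) (fun f v => f (Φ v x)) 1
    (fun f f' v => by
      rw [one_mul, ← dist_eq_norm, ← dist_eq_norm]
      exact ContinuousMap.dist_apply_le_dist _)
    (fun v => rfl)
    (fun f => f.continuous.comp (hΦ.continuous.comp (continuous_id.prodMk continuous_const)))
    (fun f v ε hε => by
      obtain ⟨δ, hδ, h⟩ := Pool.Agent.Y950.AD.unif (hΦ.flow v) f ε hε
      refine ⟨δ, hδ, fun t s hs hsδ => ?_⟩
      have h1 := h s hs hsδ (hΦ.flow v t x)
      rw [← (hΦ.flow v).map_add, add_comm s t] at h1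
      exact h1)
    Set.univ (TopologicalSpace.IsSeparable.of_separableSpace _)
  filter_upwards [h] with v hv f
  have h1 : Tendsto (fun N : ℕ => (1 / (N : ℂ)) *
      ∑ n ∈ Finset.Icc 1 N, f ((Φ v)^[n] x) * ((ArithmeticFunction.moebius n : ℤ) : ℂ)) atTop (𝓝 0) := by
    refine (hv f (Set.mem_univ _)).congr fun N => ?_
    refine congrArg _ (Finset.sum_congr rfl fun n _ => ?_)
    rw [hΦ.iter, mul_comm]
  refine ⟨h1, Pool.Agent.Y957.VK.log_of_ces _ ‖f‖ (fun n => ?_) h1⟩
  rw [norm_mul]
  calc ‖f ((Φ v)^[n] x)‖ * ‖((ArithmeticFunction.moebius n : ℤ) : ℂ)‖ ≤ ‖f‖ * 1 :=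
        mul_le_mul (f.norm_coe_le_norm _) (Pool.Agent.Y957.VK.mu_le n) (norm_nonneg _) (norm_nonneg _)
    _ = ‖f‖ := mul_one _

end Pool.Agent.Results.MP_3e612f_nt.AlmostEveryElement
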