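import Pool.Agent.Y842.CY.Inst
import Pool.Agent.Y842.CX.Sep

/-!
# The logarithmic Sarnak conjecture for compact extensions of polynomial phases (helper842)

The logarithmically averaged Sarnak conjecture for all systems `(X, T)` commuting with a continuous action of a
compact group `K`, along the orbits which are, modulo `K`, polynomially almost periodic. This includes all compact
group extensions and isometric extensions, given by cocycles that are only continuous, of unipotent affine maps of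
tori. Nothing is assumed on the invariant measures of `T`.
-/

set_option autoImplicit false

open Finset

namespace Pool.Agent.Results.MP_3e612f_nt.CompactGroupActions

/-- `e(x) = exp(2 π i x)` -/
noncomputable def e (x : ℝ) : ℂ := Complex.exp (2 * Real.pi * x * Complex.I)

/-- the sequence `b` is polynomially almost periodic: for every `ε > 0` there are real polynomials `P_1, …, P_J`
such that at every large scale `N` there are frequencies `α_j` and coefficients `ρ_j(n)`, bounded by `J` and slowly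
varying, `|ρ_j(n + 1) - ρ_j(n)| ≤ J/(n + 1)` for `n < N`, with
`∑_{n < N} |b(n) - ∑_j ρ_j(n) e(P_j(n) + α_j n)| / (n + 1) ≤ ε log N`; the `α_j` and `ρ_j` may depend on `N` -/
def PolynomiallyAlmostPeriodic (b : ℕ → ℂ) : Prop :=
  ∀ ε : ℝ, 0 < ε → ∃ (J : ℕ) (P : Fin J → Polynomial ℝ) (N₀ : ℕ), ∀ N : ℕ, N₀ ≤ N →
    ∃ (ρ : Fin J → ℕ → ℂ) (α : Fin J → ℝ),
      (∀ j n, ‖ρ j n‖ ≤ J) ∧ (∀ j, ∀ n < N, ‖ρ j (n + 1) - ρ j n‖ ≤ J / ((n : ℝ) + 1)) ∧
        ∑ n ∈ range N, 1 / ((n : ℝ) + 1) * ‖b n - ∑ j, ρ j n * e ((P j).eval (n : ℝ) + α j * n)‖ ≤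
          ε * Real.log N

/-- the two conclusions for the weight `u` and the sequence `b`:
(1) `∑_{n ≤ N} u(n) b(n) / n = o(log N)`;
(2) in short intervals: for `H ≥ H₀(ε)` and `N ≥ N₀(H, ε)`,
`∑_{n ≤ N} (1/n) |∑_{m ≤ H} u(n + m) b(n + m)| ≤ ε H log N` -/
def Orthogonal (u : ℕ → ℤ) (b : ℕ → ℂ) : Prop :=
  (∀ ε : ℝ, 0 < ε → ∃ N₀ : ℕ, ∀ N : ℕ, N₀ ≤ N → ‖∑ n ∈ Icc 1 N, (u n : ℂ) * b n / n‖ ≤ ε * Real.log N) ∧
  (∀ ε : ℝ, 0 < ε → ∃ H₀ : ℕ, ∀ H : ℕ, H₀ ≤ H → ∃ N₀ : ℕ, ∀ N : ℕ, N₀ ≤ N →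
    ∑ n ∈ Icc 1 N, ‖∑ m ∈ Icc 1 H, (u (n + m) : ℂ) * b (n + m)‖ / n ≤ ε * (H * Real.log N))

/-- the skew product `(y, z) ↦ (S y, φ(y) z)` -/
def skew {Y K Z : Type} [SMul K Z] (S : Y → Y) (φ : Y → K) (x : Y × Z) : Y × Z := (S x.1, φ x.1 • x.2)

/-- **Theorem.** Let `u` be the Möbius function `μ` or the Liouville function `λ`.
(A) Let `X` be a compact metrizable space (or compact, Hausdorff and first countable), `K` a compact Hausdorff group
acting continuously on `X`, and `T : X → X` a continuous map commuting with `K`. Let `x` be a point for which the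
sequences `c(T^n x)` are polynomially almost periodic for all `K`-invariant `c ∈ C(X)`. Then `u` is orthogonal to
`F(T^n x)`, in the sense of (1) and (2), for every `F ∈ C(X)`.
(B) In particular: let `S` be a continuous map of the torus `(ℝ/ℤ)^d`, `y` a point with polynomial orbit
`S^n y = (P_1(n), …, P_d(n)) mod 1` with real polynomials `P_i` (for instance any `y`, if `S` is a unipotent affine
map), `φ` any continuous map of the torus to a compact Hausdorff group `K` acting continuously on a space `Z`, and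
`T(y, z) = (S y, φ(y) z)`. Then `u` is orthogonal to `F(T^n (y, z))` for all `z ∈ Z` and all continuous `F`. -/
theorem result (u : ℕ → ℤ)
    (hu : u = (fun n => ArithmeticFunction.moebius n) ∨ u = (fun n => (-1) ^ ArithmeticFunction.cardFactors n)) :
    (∀ (X K : Type) [TopologicalSpace X] [CompactSpace X] [FirstCountableTopology X] [T2Space X]
      [TopologicalSpace K] [Group K] [IsTopologicalGroup K] [CompactSpace K] [T2Space K] [MulAction K X]
      [ContinuousSMul K X] (T : X → X), Continuous T → (∀ (k : K) (x : X), T (k • x) = k • T x) → ∀ x : X,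
      (∀ c : C(X, ℂ), (∀ (k : K) (y : X), c (k • y) = c y) → PolynomiallyAlmostPeriodic (fun n => c (T^[n] x))) →
      ∀ F : C(X, ℂ), Orthogonal u (fun n => F (T^[n] x))) ∧
    (∀ (d : ℕ) (K Z : Type) [TopologicalSpace K] [Group K] [IsTopologicalGroup K] [CompactSpace K] [T2Space K]
      [TopologicalSpace Z] [MulAction K Z] [ContinuousSMul K Z] (S : UnitAddTorus (Fin d) → UnitAddTorus (Fin d)),
      Continuous S →
      ∀ φ : UnitAddTorus (Fin d) → K, Continuous φ → ∀ (y : UnitAddTorus (Fin d)) (P : Fin d → Polynomial ℝ),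
      (∀ (n : ℕ) (i : Fin d), (S^[n] y) i = (((P i).eval (n : ℝ) : ℝ) : UnitAddCircle)) →
      ∀ (z : Z) (F : C(UnitAddTorus (Fin d) × Z, ℂ)), Orthogonal u (fun n => F ((skew S φ)^[n] (y, z)))) := by
  have key : ∃ v : ℕ → ℤ, v = u ∧ (∀ n, ‖((v n : ℤ) : ℂ)‖ ≤ 1) ∧
      (∀ m n : ℕ, Nat.Coprime m n → v (m * n) = v m * v n) ∧
      Pool.Agent.TH823.MRS.ExpoSmall (fun n => ((v n : ℤ) : ℂ)) ∧
      (∀ p : ℕ, p.Prime → Pool.Agent.Y842.PG.Flp (fun n => ((v n : ℤ) : ℂ)) p) := by
    rcases hu with h | h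
    · refine ⟨Pool.Agent.TH823.MRS.mob, h.symm, Pool.Agent.Y842.PH.norm_F _ Pool.Agent.TH823.MRS.mob_bdd, ?_,
        Pool.Agent.TH823.MRS.expo_mob, Pool.Agent.Y842.PG.flip_Flp _ Pool.Agent.TH823.MRS.mob_flip⟩
      intro m n hmn
      exact ArithmeticFunction.isMultiplicative_moebius.map_mul_of_coprime hmn
    · refine ⟨Pool.Agent.H376R2.MR.lam, h.symm, Pool.Agent.Y842.PH.norm_F _ Pool.Agent.Y842.EL.abs_lam, ?_,
        Pool.Agent.TH823.MRS.expo_lam, Pool.Agent.Y842.PG.flip_Flp _ Pool.Agent.TH823.MRS.lam_flip⟩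
      intro m n hmn
      show (-1 : ℤ) ^ ArithmeticFunction.cardFactors (m * n) =
        (-1) ^ ArithmeticFunction.cardFactors m * (-1) ^ ArithmeticFunction.cardFactors n
      rcases Nat.eq_zero_or_pos m with hm | hm
      · subst hm
        have hn : n = 1 := by simpa using hmn
        subst hn
        simp
      · rcases Nat.eq_zero_or_pos n with hn | hn
        · subst hn
          have hm1 : m = 1 := by simpa using hmn
          subst hm1
          simp
        · rw [ArithmeticFunction.cardFactors_mul hm.ne' hn.ne', pow_add]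
  obtain ⟨v, rfl, h1, h2, h3, h4⟩ := key
  have hr : ∀ n, (starRingEnd ℂ) ((v n : ℤ) : ℂ) = ((v n : ℤ) : ℂ) := fun n => by simp
  have hm : ∀ m n : ℕ, Nat.Coprime m n → ((v (m * n) : ℤ) : ℂ) = ((v m : ℤ) : ℂ) * ((v n : ℤ) : ℂ) := by
    intro m n hmn
    rw [h2 m n hmn]
    push_cast
    rfl
  refine ⟨?_, ?_⟩
  · intro X K _ _ _ _ _ _ _ _ _ _ _ T hT hTK x hx F
    exact Pool.Agent.Y842.CY.main_log h1 hr hm h3 h4 (Pool.Agent.Y842.CX.separated_of_compact K) T hT hTK x hx F
  · intro d K Z _ _ _ _ _ _ _ _ S hS φ hφ y P hP z F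
    exact Pool.Agent.Y842.CY.skew_log h1 hr hm h3 h4 (Pool.Agent.Y842.CX.separated_of_compact K) S hS φ hφ y
      (fun c => Pool.Agent.Y842.CY.polyAP_torus (fun n => S^[n] y) P hP c) z F

end Pool.Agent.Results.MP_3e612f_nt.CompactGroupActions
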