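import Pool.Agent.Y326.Top2

/-! The logarithmically averaged Sarnak conjecture, in the strong form with moving starting points, for systems
whose windows of length `L` lie close to subspaces of dimension `o(L)`. -/

set_option autoImplicit false

open Finset Filter Topology

namespace Pool.Agent.Results.MP_3e612f_nt.SublinearDimension

universe w

/-- The Möbius function and the Liouville function. -/
def MuLambda : Set (ℕ → ℤ) :=
  {fun n => ArithmeticFunction.moebius n, fun n => (-1) ^ ArithmeticFunction.cardFactors n}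

/-- `e(t) = exp (2πit)` -/
noncomputable def e (t : ℝ) : ℂ := Complex.exp (2 * Real.pi * Complex.I * t)

/-- The supremum over all starting points `x` of `|∑_{h < H} u(n + h) e(hθ) f(Tʰ x)|`. -/
noncomputable def supWindow {X : Type w} (T : X → X) (f : X → ℂ) (u : ℕ → ℤ) (θ : ℝ) (n H : ℕ) : ℝ :=
  ⨆ x : X, ‖∑ h ∈ range H, ((u (n + h) : ℤ) : ℂ) * e (h * θ) * f (T^[h] x)‖

/-- There is a subspace of `ℂ^L` of dimension at most `ρ L` such that for each point `x` the vector
`(f(x), f(Tx), …, f(T^{L-1}x))` lies within `δ √L` of it, in the Euclidean norm. -/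
def NearSubspace {X : Type w} (T : X → X) (f : X → ℂ) (L : ℕ) (ρ δ : ℝ) : Prop :=
  ∃ V : Submodule ℂ (EuclideanSpace ℂ (Fin L)), (Module.finrank ℂ V : ℝ) ≤ ρ * L ∧
    ∀ x : X, ∃ v ∈ V, ∑ h : Fin L, ‖f (T^[h] x) - v h‖ ^ 2 ≤ δ ^ 2 * L

/-- The function `f` has sublinear dimension: for each `η > 0` there is an `L ≥ 1` for which the windows of
length `L` lie within `η √L` of one subspace of dimension at most `η L`. -/
def Sublinear {X : Type w} (T : X → X) (f : X → ℂ) : Prop :=
  ∀ η : ℝ, 0 < η → ∃ L : ℕ, 1 ≤ L ∧ NearSubspace T f L η η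

open Classical in
/-- a set of positive integers of logarithmic density one -/
def LogDensityOne (s : Set ℕ) : Prop :=
  Tendsto (fun Z : ℕ => (1 / Real.log (Z : ℝ)) * ∑ n ∈ (Icc 1 Z).filter (· ∈ s), (1 / (n : ℝ)))
    atTop (𝓝 1)

/-- **Part 1 (quantitative, uniform over all systems).** There are `H₀` and `C`, depending only on
`B, L, ρ, δ`, such that for all maps `T` of sets `X` to themselves and all `f` with `|f| ≤ B` whose windows of length
`L` lie within `δ √L` of one subspace of dimension at most `ρ L`: for `H ≥ H₀` and `N ≥ H ^ C`,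
`∑_{n ≤ N} (1/n) sup_x |∑_{h < H} u(n + h) e(hθ) f(Tʰ x)| ≤ 13 ((B + δ) √ρ + δ) H log N`, for all real `θ`. -/
def Quantitative : Prop :=
  ∀ (B : ℝ) (L : ℕ) (ρ δ : ℝ), 0 ≤ B → 1 ≤ L → 0 < ρ → 0 < δ → ∃ H₀ C : ℕ,
    ∀ (X : Type w) (T : X → X) (f : X → ℂ), (∀ x, ‖f x‖ ≤ B) → NearSubspace T f L ρ δ →
      ∀ H N : ℕ, H₀ ≤ H → H ^ C ≤ N → ∀ u ∈ MuLambda, ∀ θ : ℝ,
        ∑ n ∈ Icc 1 N, (1 / (n : ℝ)) * supWindow T f u θ n H ≤
          13 * ((B + δ) * √ρ + δ) * H * Real.log N

/-- the logarithmically averaged Sarnak conjecture for `(X, T)` and `u`, with the suprema over the starting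
points inside the mean over `n` -/
def MovingOrbits {X : Type w} [MetricSpace X] [CompactSpace X] (T : C(X, X)) (u : ℕ → ℤ) : Prop :=
  ∀ (f : C(X, ℂ)) (ε : ℝ), 0 < ε → ∃ H₀ C : ℕ, ∀ H N : ℕ, H₀ ≤ H → H ^ C ≤ N → ∀ θ : ℝ,
    ∑ n ∈ Icc 1 N, (1 / (n : ℝ)) * supWindow T f u θ n H ≤ ε * H * Real.log N

/-- the logarithmically averaged Sarnak conjecture for `(X, T)` and `u`, uniformly in the starting point and with
a twist by `e(nθ)`, uniformly in `θ` -/
def LogSarnak {X : Type w} [MetricSpace X] [CompactSpace X] (T : C(X, X)) (u : ℕ → ℤ) : Prop :=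
  ∀ (f : C(X, ℂ)) (ε : ℝ), 0 < ε → ∃ N₀ : ℕ, ∀ N : ℕ, N₀ ≤ N → ∀ (x : X) (θ : ℝ),
    ‖∑ n ∈ Icc 1 N, ((u n : ℤ) : ℂ) * e (n * θ) * f (T^[n] x) / n‖ ≤ ε * Real.log N

/-- the Sarnak conjecture for `(X, T)` and `u` along one set of `N` of logarithmic density one, uniformly in the
starting point, for all continuous functions and all twists in a countable set -/
def SarnakOnScales {X : Type w} [MetricSpace X] [CompactSpace X] (T : C(X, X)) (u : ℕ → ℤ) : Prop :=
  ∀ Θ : Set ℝ, Θ.Countable → ∃ s : Set ℕ, LogDensityOne s ∧ ∀ f : C(X, ℂ), ∀ θ ∈ Θ, ∀ ε : ℝ, 0 < ε →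
    ∃ N₀ : ℕ, ∀ N ∈ s, N₀ ≤ N → ∀ x : X, ‖∑ n ∈ Icc 1 N, ((u n : ℤ) : ℂ) * e (n * θ) * f (T^[n] x)‖ ≤ ε * N

/-- **Part 2.** The three conclusions hold, for the Möbius and for the Liouville function, for each compact
metric space `X` and continuous `T` for which the continuous functions of sublinear dimension span a dense
subspace of `C(X)`. -/
def Qualitative : Prop :=
  ∀ (X : Type w) [MetricSpace X] [CompactSpace X] (T : C(X, X)),
    (Submodule.span ℂ {f : C(X, ℂ) | Sublinear T f}).topologicalClosure = ⊤ →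
      ∀ u ∈ MuLambda, MovingOrbits T u ∧ LogSarnak T u ∧ SarnakOnScales T u

/-- **The logarithmically averaged Sarnak conjecture for systems of sublinear dimension.** -/
theorem result : Quantitative.{w} ∧ Qualitative.{w} := by
  have hu : ∀ u ∈ MuLambda, (∀ n, |u n| ≤ 1) ∧ Pool.Agent.Y326.TwoPoint u := by
    intro u hu
    rcases hu with rfl | hu
    · exact ⟨fun n => ArithmeticFunction.abs_moebius_le_one, Pool.Agent.Y326.TwoPoint.mu⟩
    · rw [Set.mem_singleton_iff] at hu
      subst hu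
      refine ⟨fun n => ?_, Pool.Agent.Y326.TwoPoint.lam⟩
      show |(-1 : ℤ) ^ ArithmeticFunction.cardFactors n| ≤ 1
      rw [abs_pow, abs_neg, abs_one, one_pow]
  constructor
  · intro B L ρ δ hB hL hρ hδ
    have h1 := hu _ (Or.inl rfl)
    have h2 := hu (fun n => (-1) ^ ArithmeticFunction.cardFactors n) (Or.inr rfl)
    obtain ⟨H1, C1, a1⟩ := Pool.Agent.Y326.supW_near_unif.{w} h1.1 h1.2 hB hL hρ hδ
    obtain ⟨H2, C2, a2⟩ := Pool.Agent.Y326.supW_near_unif.{w} h2.1 h2.2 hB hL hρ hδ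
    refine ⟨max (max H1 H2) 1, max C1 C2, fun X T f hf hn H N hH hN u hu θ => ?_⟩
    have hH1 : 1 ≤ H := (le_max_right _ _).trans hH
    rcases hu with rfl | hu
    · exact a1 X T f hf hn H N (((le_max_left _ _).trans (le_max_left _ _)).trans hH)
        ((Nat.pow_le_pow_right hH1 (le_max_left _ _)).trans hN) θ
    · rw [Set.mem_singleton_iff] at hu
      subst hu
      exact a2 X T f hf hn H N (((le_max_right _ _).trans (le_max_left _ _)).trans hH)
        ((Nat.pow_le_pow_right hH1 (le_max_right _ _)).trans hN) θ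
  · intro X _ _ T hs u hu'
    obtain ⟨h1, h2⟩ := hu u hu'
    have hSW : ∀ f : C(X, ℂ), Pool.Agent.Y326.SW T f u :=
      Pool.Agent.Y326.SW_closure T h1 {f : C(X, ℂ) | Sublinear T f} (fun f hf =>
        Pool.Agent.Y326.SW.of_near h1 h2 (norm_nonneg f) (fun x => f.norm_coe_le_norm x) hf) hs
    refine ⟨fun f => hSW f, fun f => Pool.Agent.Y326.logmean_unif T f h1 (hSW f), fun Θ hΘ => ?_⟩
    obtain ⟨s, hs1, hs2⟩ := Pool.Agent.Y326.scales_unif T h1 hSW Θ hΘ
    classical
    refine ⟨s, ?_, hs2⟩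
    have := Pool.Agent.Y326.ld_one s hs1
    unfold LogDensityOne
    refine this.congr fun Z => ?_
    congr 1

end Pool.Agent.Results.MP_3e612f_nt.SublinearDimension
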